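import Pool.Agent.H15.E3.Flow
import Pool.Agent.H15.E3.Box
import Pool.Agent.H27.NS.Mn
import Pool.Agent.H63.NS.Fam

/-!
Module M2a of the proof of MP_3ea55a_an: existence of uniform means of admissible functions
(`adm_um`, `UA.of_adm`), from the linear theorem `lin_flow_I`.
-/

set_option autoImplicit false

open MeasureTheory Finset Filter Topology
open scoped BigOperators

namespace Pool.Agent.H63.NS

/-! ### finite boxes -/

lemma av_image {ι κ : Type*} [DecidableEq κ] (s : Finset ι) (f : ι → κ) (hf : Function.Injective f)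
    (φ : κ → ℝ) : av (s.image f) φ = av s (fun i => φ (f i)) := by
  unfold av
  rw [card_image_of_injective _ hf, sum_image (fun a _ b _ h => hf h)]

/-- the integer box with lower corner `a` and sides `N` -/
noncomputable def bx {n : ℕ} (a : Fin n → ℤ) (N : Fin n → ℕ) : Finset (Fin n → ℤ) :=
  Fintype.piFinset fun d => Finset.Ico (a d) (a d + N d)

lemma av_piFinset_succ {n : ℕ} (S : Fin (n + 1) → Finset ℤ) (φ : (Fin (n + 1) → ℤ) → ℝ) :
    av (Fintype.piFinset S) φ = av (S 0) (fun a => av (Fintype.piFinset (fun i => S i.succ))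
      (fun v => φ (Fin.cons a v))) := by
  have e : Fintype.piFinset S = (S 0 ×ˢ Fintype.piFinset (fun i => S i.succ)).image
      (fun p : ℤ × (Fin n → ℤ) => (Fin.cons p.1 p.2 : Fin (n + 1) → ℤ)) := by
    ext v
    rw [Fintype.mem_piFinset, mem_image]
    constructor
    · intro h
      refine ⟨(v 0, fun i => v i.succ), ?_, ?_⟩
      · rw [mem_product, Fintype.mem_piFinset]
        exact ⟨h 0, fun i => h i.succ⟩
      · exact Fin.cons_self_tail v
    · rintro ⟨p, hp, rfl⟩ i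
      rw [mem_product, Fintype.mem_piFinset] at hp
      refine Fin.cases ?_ (fun j => ?_) i
      · rw [Fin.cons_zero]; exact hp.1
      · rw [Fin.cons_succ]; exact hp.2 j
  have hinj : Function.Injective
      (fun p : ℤ × (Fin n → ℤ) => (Fin.cons p.1 p.2 : Fin (n + 1) → ℤ)) := by
    intro p p' h
    have h' : (Fin.cons p.1 p.2 : Fin (n + 1) → ℤ) = Fin.cons p'.1 p'.2 := h
    rw [Fin.cons_inj] at h'
    exact Prod.ext h'.1 h'.2
  rw [e, av_image _ _ hinj, av_product]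

lemma av_range_int (N : ℕ) (g : ℤ → ℝ) :
    av (range N) (fun m => g (m : ℤ)) = av (Finset.Ico (0 : ℤ) (0 + N)) g := by
  have e : Finset.Ico (0 : ℤ) (0 + N) = (range N).image (fun m : ℕ => (m : ℤ)) := by
    ext x
    rw [mem_image, mem_Ico, zero_add]
    constructor
    · rintro ⟨h1, h2⟩
      refine ⟨x.toNat, ?_, ?_⟩
      · rw [mem_range]; omega
      · omega
    · rintro ⟨m, hm, rfl⟩
      rw [mem_range] at hm
      omega
  rw [e, av_image _ _ (fun a b h => by exact_mod_cast h)]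

/-- translation of a box -/
lemma av_bx_add {n : ℕ} (w : Fin n → ℤ) (N : Fin n → ℕ) (g : (Fin n → ℤ) → ℝ) :
    av (bx 0 N) (fun v => g (w + v)) = av (bx w N) g := by
  have e : bx w N = (bx 0 N).image (fun v => w + v) := by
    ext x
    rw [mem_image]
    unfold bx
    rw [Fintype.mem_piFinset]
    constructor
    · intro h
      refine ⟨x - w, ?_, by abel⟩
      rw [Fintype.mem_piFinset]
      intro d
      have := h d
      rw [mem_Ico] at this ⊢
      simp only [Pi.sub_apply, Pi.zero_apply]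
      omega
    · rintro ⟨v, hv, rfl⟩ d
      rw [Fintype.mem_piFinset] at hv
      have := hv d
      rw [mem_Ico] at this ⊢
      simp only [Pi.add_apply, Pi.zero_apply] at this ⊢
      omega
  rw [e, av_image _ _ (add_right_injective w)]

/-! ### points of the grid -/

/-- add `c * v i` to the coordinate `l[i]` -/
noncomputable def gp (c : ℝ) : (l : List ℕ) → (Fin l.length → ℤ) → (ℕ → ℝ) → (ℕ → ℝ)
  | [], _, z => z
  | d :: l, v, z => gp c l (fun i => v i.succ) (Function.update z d (z d + c * v 0))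

lemma gp_cons (c : ℝ) (d : ℕ) (l : List ℕ) (v : Fin (d :: l).length → ℤ) (z : ℕ → ℝ) :
    gp c (d :: l) v z = gp c l (fun i => v i.succ) (Function.update z d (z d + c * v 0)) := rfl

/-- the linear part of the value of `L` on the grid -/
noncomputable def gl (c : ℝ) (l : List ℕ) (L : ℕ →₀ ℤ) : (Fin l.length → ℤ) →+ ℝ where
  toFun v := ∑ i : Fin l.length, (L (l.get i) : ℝ) * (c * v i)
  map_zero' := by simp
  map_add' v w := by
    rw [← sum_add_distrib]
    refine sum_congr rfl (fun i _ => ?_)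
    rw [Pi.add_apply]; push_cast; ring

lemma gl_def (c : ℝ) (l : List ℕ) (L : ℕ →₀ ℤ) (v : Fin l.length → ℤ) :
    gl c l L v = ∑ i : Fin l.length, (L (l.get i) : ℝ) * (c * v i) := rfl

lemma ev_gp (c : ℝ) (l : List ℕ) (L : ℕ →₀ ℤ) (v : Fin l.length → ℤ) (z : ℕ → ℝ) :
    ev L (gp c l v z) = ev L z + gl c l L v := by
  rw [gl_def]
  induction l generalizing z with
  | nil => simp [gp]
  | cons d l ih =>
    rw [gp_cons, ih, ev_update]
    have h := Fin.sum_univ_succ (fun i : Fin (l.length + 1) =>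
      (L ((d :: l).get i) : ℝ) * (c * v i))
    have h' : ∑ i : Fin (d :: l).length, (L ((d :: l).get i) : ℝ) * (c * v i) =
      (L d : ℝ) * (c * v 0) + ∑ i : Fin l.length, (L (l.get i) : ℝ) * (c * v i.succ) := h
    rw [h']
    ring

lemma AvL_eq_bx (lam : ℕ) (K : ℕ → ℕ) (l : List ℕ) (ψ : (ℕ → ℝ) → ℝ) (z : ℕ → ℝ) :
    AvL (fun _ => lam) K l ψ z =
      av (bx 0 (fun i : Fin l.length => K (l.get i) * 2 ^ lam)) (fun v => ψ (gp (2 ^ lam)⁻¹ l v z)) := by
  induction l generalizing z with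
  | nil =>
    have hne : (bx 0 (fun i : Fin ([] : List ℕ).length => K (([] : List ℕ).get i) * 2 ^ lam)).Nonempty := by
      refine ⟨fun i => i.elim0, ?_⟩
      unfold bx
      rw [Fintype.mem_piFinset]
      intro i
      exact i.elim0
    rw [AvL_nil]
    exact (av_const hne (ψ z)).symm
  | cons d l ih =>
    rw [AvL_cons]
    have h1 : av (bx 0 (fun i : Fin (d :: l).length => K ((d :: l).get i) * 2 ^ lam))
        (fun v => ψ (gp (2 ^ lam)⁻¹ (d :: l) v z)) =
        av (Finset.Ico (0 : ℤ) (0 + ((K d * 2 ^ lam : ℕ) : ℤ))) (fun a =>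
          av (bx 0 (fun i : Fin l.length => K (l.get i) * 2 ^ lam))
          (fun v => ψ (gp (2 ^ lam)⁻¹ (d :: l) (Fin.cons a v) z))) :=
      av_piFinset_succ _ _
    rw [h1, ← av_range_int]
    unfold A1
    refine av_congr (fun m _ => ?_)
    rw [ih]
    refine av_congr (fun v _ => ?_)
    have h2 : gp (2 ^ lam)⁻¹ (d :: l) (Fin.cons (m : ℤ) v) z =
        gp (2 ^ lam)⁻¹ l v (Function.update z d (z d + (2 ^ lam)⁻¹ * ((m : ℤ) : ℝ))) := rfl
    rw [h2, div_eq_inv_mul, Int.cast_natCast]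

/-- rounding to the grid -/
lemma exists_gp_near (c : ℝ) (hc : 0 < c) (l : List ℕ) (z z' : ℕ → ℝ) (h : ∀ d, d ∉ l → z' d = z d) :
    ∃ w : Fin l.length → ℤ, ∀ L : ℕ →₀ ℤ,
      |ev L z' - ev L (gp c l w z)| ≤ (∑ i : Fin l.length, |(L (l.get i) : ℝ)|) * c := by
  induction l generalizing z with
  | nil =>
    have e : z' = z := funext (fun d => h d List.not_mem_nil)
    refine ⟨fun i => i.elim0, fun L => ?_⟩
    rw [e]
    simp [gp]
  | cons d l ih =>
    obtain ⟨w', hw'⟩ := ih (Function.update z d (z' d)) (fun x hx => by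
      by_cases hxd : x = d
      · rw [hxd, Function.update_self]
      · rw [Function.update_of_ne hxd]
        exact h x (fun hm => by
          rcases List.mem_cons.1 hm with h1 | h1
          · exact hxd h1
          · exact hx h1))
    refine ⟨Fin.cons ⌊(z' d - z d) / c⌋ w', fun L => ?_⟩
    have e1 : gp c (d :: l) (Fin.cons ⌊(z' d - z d) / c⌋ w') z =
      gp c l w' (Function.update z d (z d + c * (⌊(z' d - z d) / c⌋ : ℝ))) := rfl
    have h1 := hw' L
    rw [ev_gp, ev_update] at h1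
    rw [e1, ev_gp, ev_update]
    have h2 : ∑ i : Fin (d :: l).length, |(L ((d :: l).get i) : ℝ)| =
      |(L d : ℝ)| + ∑ i : Fin l.length, |(L (l.get i) : ℝ)| :=
      Fin.sum_univ_succ (fun i : Fin (l.length + 1) => |(L ((d :: l).get i) : ℝ)|)
    rw [h2, add_mul]
    have h3 : |(z' d - z d) - c * (⌊(z' d - z d) / c⌋ : ℝ)| ≤ c := by
      have f1 := Int.floor_le ((z' d - z d) / c)
      have f2 := Int.lt_floor_add_one ((z' d - z d) / c)
      rw [le_div_iff₀ hc] at f1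
      rw [div_lt_iff₀ hc] at f2
      rw [abs_le]
      constructor <;> linarith
    have e2 : ev L z' - (ev L z + (L d : ℝ) * (z d + c * (⌊(z' d - z d) / c⌋ : ℝ) - z d) +
        gl c l L w') = (ev L z' - (ev L z + (L d : ℝ) * (z' d - z d) + gl c l L w')) +
        (L d : ℝ) * ((z' d - z d) - c * (⌊(z' d - z d) / c⌋ : ℝ)) := by ring
    rw [e2]
    refine (abs_add_le _ _).trans ?_
    rw [abs_mul]
    have h4 : |(L d : ℝ)| * |(z' d - z d) - c * (⌊(z' d - z d) / c⌋ : ℝ)| ≤ |(L d : ℝ)| * c :=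
      mul_le_mul_of_nonneg_left h3 (abs_nonneg _)
    linarith

/-! ### refinement of the mesh -/

lemma sum_range_mul_split (g : ℕ → ℝ) (M P : ℕ) :
    ∑ m ∈ range (M * P), g m = ∑ b ∈ range P, ∑ a ∈ range M, g (a * P + b) := by
  induction M with
  | zero => simp
  | succ M ih =>
    rw [Nat.succ_mul, Finset.sum_range_add, ih, ← sum_add_distrib]
    refine sum_congr rfl (fun b _ => ?_)
    rw [sum_range_succ]

lemma A1_refine (lam p K d : ℕ) (g : (ℕ → ℝ) → ℝ) (z : ℕ → ℝ) :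
    A1 (lam + p) K d g z = av (range (2 ^ p)) (fun b =>
      A1 lam K d g (Function.update z d (z d + (b : ℝ) / 2 ^ (lam + p)))) := by
  unfold A1 av
  rw [smul_eq_mul, smul_eq_mul]
  simp only [smul_eq_mul]
  rw [← mul_sum, card_range, card_range, card_range, ← mul_assoc, ← mul_inv]
  have e1 : K * 2 ^ (lam + p) = (K * 2 ^ lam) * 2 ^ p := by rw [pow_add, mul_assoc]
  rw [e1, sum_range_mul_split]
  have e2 : (((K * 2 ^ lam * 2 ^ p : ℕ) : ℝ))⁻¹ = (((2 ^ p : ℕ) : ℝ) * ((K * 2 ^ lam : ℕ) : ℝ))⁻¹ := by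
    push_cast; ring
  rw [e2]
  congr 1
  refine sum_congr rfl (fun b _ => sum_congr rfl (fun a _ => ?_))
  refine congrArg g ?_
  funext x
  by_cases hx : x = d
  · subst hx
    rw [Function.update_self, Function.update_self, Function.update_self]
    push_cast
    rw [pow_add]
    field_simp
    ring
  · rw [Function.update_of_ne hx, Function.update_of_ne hx, Function.update_of_ne hx]

lemma A1_AvL_comm (k K d : ℕ) (k' K' : ℕ → ℕ) (l : List ℕ) (hd : d ∉ l) (ψ : (ℕ → ℝ) → ℝ) :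
    A1 k K d (AvL k' K' l ψ) = AvL k' K' l (A1 k K d ψ) := by
  induction l with
  | nil => rfl
  | cons e l ih =>
    have h1 : d ≠ e := fun h => hd (by rw [h]; exact List.mem_cons_self)
    have h2 : d ∉ l := fun h => hd (List.mem_cons_of_mem _ h)
    rw [AvL_cons, AvL_cons, A1_comm _ _ _ _ _ _ _ h1, ih h2]

lemma AvL_refine (lam : ℕ) (k K : ℕ → ℕ) (l : List ℕ) (hl : l.Nodup) (hk : ∀ d ∈ l, lam ≤ k d)
    (m ε : ℝ) (ψ : (ℕ → ℝ) → ℝ) (z' : ℕ → ℝ)
    (H : ∀ z'' : ℕ → ℝ, (∀ d, d ∉ l → z'' d = z' d) → |AvL (fun _ => lam) K l ψ z'' - m| ≤ ε) :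
    |AvL k K l ψ z' - m| ≤ ε := by
  induction l generalizing ψ z' with
  | nil => exact H z' (fun _ _ => rfl)
  | cons d l ih =>
    have hdl : d ∉ l := (List.nodup_cons.1 hl).1
    rw [AvL_cons, A1_AvL_comm _ _ _ _ _ _ hdl]
    refine ih (List.nodup_cons.1 hl).2 (fun e he => hk e (List.mem_cons_of_mem _ he)) _ _
      (fun z'' hz'' => ?_)
    rw [← A1_AvL_comm _ _ _ _ _ _ hdl]
    obtain ⟨p, hp⟩ := Nat.exists_eq_add_of_le (hk d List.mem_cons_self)
    rw [hp, A1_refine]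
    have hne : (range (2 ^ p)).Nonempty := by rw [nonempty_range_iff]; positivity
    have e : av (range (2 ^ p)) (fun b => A1 lam (K d) d (AvL (fun _ => lam) K l ψ)
        (Function.update z'' d (z'' d + (b : ℝ) / 2 ^ (lam + p)))) - m =
        av (range (2 ^ p)) (fun b => A1 lam (K d) d (AvL (fun _ => lam) K l ψ)
        (Function.update z'' d (z'' d + (b : ℝ) / 2 ^ (lam + p))) - m) := by
      rw [av_sub, av_const hne]
    rw [e]
    refine abs_av_le hne (fun b _ => ?_)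
    refine H _ (fun x hx => ?_)
    have hxd : x ≠ d := fun h => hx (by rw [h]; exact List.mem_cons_self)
    rw [Function.update_of_ne hxd]
    exact hz'' x (fun h => hx (List.mem_cons_of_mem _ h))

/-! ### the uniform mean -/

section main

variable {Y : Type} [MeasurableSpace Y] {ν : Measure Y} [IsProbabilityMeasure ν]

/-- one mesh -/
lemma adm_mesh (F : Flow ν) {ψ : (ℕ → ℝ) → ℝ} (h : Adm F ψ) (l : List ℕ) (z : ℕ → ℝ) (ε : ℝ)
    (hε : 0 < ε) : ∃ lam L1 : ℕ, ∀ K K' : ℕ → ℕ, (∀ d ∈ l, L1 ≤ K d) → (∀ d ∈ l, L1 ≤ K' d) →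
      ∀ z' z'' : ℕ → ℝ, (∀ d, d ∉ l → z' d = z d) → (∀ d, d ∉ l → z'' d = z d) →
        |AvL (fun _ => lam) K l ψ z' - AvL (fun _ => lam) K' l ψ z''| ≤ ε := by
  obtain ⟨n, L, o, f, hf, hψ⟩ := h
  obtain ⟨δ, hδ, Hδ⟩ := prod_unif F f hf (ε / 3) (by positivity)
  -- the mesh
  have hM0 : 0 ≤ ∑ j, ∑ i : Fin l.length, |(L j (l.get i) : ℝ)| :=
    sum_nonneg (fun j _ => sum_nonneg (fun i _ => abs_nonneg _))
  set M : ℝ := ∑ j, ∑ i : Fin l.length, |(L j (l.get i) : ℝ)| with hM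
  obtain ⟨lam, hlam⟩ := exists_pow_lt_of_lt_one (show 0 < δ / (M + 1) by positivity)
    (show (1 / 2 : ℝ) < 1 by norm_num)
  have hc0 : (0 : ℝ) < (2 ^ lam)⁻¹ := by positivity
  have hcM : M * (2 ^ lam)⁻¹ ≤ δ := by
    have e : ((1 : ℝ) / 2) ^ lam = (2 ^ lam)⁻¹ := by rw [one_div, inv_pow]
    rw [e, lt_div_iff₀ (by positivity)] at hlam
    nlinarith
  set c : ℝ := (2 ^ lam)⁻¹ with hc
  -- the linear theorem
  obtain ⟨Ks, δ', hδ', Hlin⟩ := H15.E3.lin_flow_I F n (fun j => gl c l (L j))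
    (fun j => F.T (ev (L j) z + o j) (f j)) (ε / 3) (by positivity)
  obtain ⟨L1, hL1⟩ := H15.E3.inv_box Ks hδ'
  have key : ∀ (K : ℕ → ℕ), (∀ d ∈ l, L1 ≤ K d) → ∀ z' : ℕ → ℝ, (∀ d, d ∉ l → z' d = z d) →
      ∃ B : Finset (Fin l.length → ℤ), H15.E3.Inv Ks δ' B ∧
        |AvL (fun _ => lam) K l ψ z' -
          av B (fun v => I ν (∏ j, F.T (gl c l (L j) v) (F.T (ev (L j) z + o j) (f j))))| ≤ ε / 3 := by
    intro K hK z' hz'
    obtain ⟨w, hw⟩ := exists_gp_near c hc0 l z z' hz'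
    refine ⟨bx w (fun i : Fin l.length => K (l.get i) * 2 ^ lam), ?_, ?_⟩
    · refine hL1 w _ (fun i => ?_)
      have h1 := hK (l.get i) (List.get_mem l i)
      have h2 : 1 ≤ 2 ^ lam := Nat.one_le_two_pow
      calc L1 ≤ K (l.get i) * 1 := by rw [mul_one]; exact h1
        _ ≤ K (l.get i) * 2 ^ lam := Nat.mul_le_mul_left _ h2
    · rw [AvL_eq_bx, ← av_bx_add w (fun i : Fin l.length => K (l.get i) * 2 ^ lam)
        (fun v => I ν (∏ j, F.T (gl c l (L j) v) (F.T (ev (L j) z + o j) (f j)))), ← av_sub]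
      refine abs_av_le' (by positivity) (fun v _ => ?_)
      rw [hψ]
      have e1 : ∀ j, F.T (gl c l (L j) (w + v)) (F.T (ev (L j) z + o j) (f j)) =
          F.T (gl c l (L j) (w + v) + (ev (L j) z + o j)) (f j) := fun j => F.T_T _ _ _
      rw [prod_congr rfl (fun j _ => e1 j)]
      refine (abs_I_sub_le _ _).trans (Hδ _ _ (fun j => ?_))
      rw [ev_gp, map_add]
      have h1 := hw (L j)
      rw [ev_gp] at h1
      have e2 : ev (L j) z' + gl c l (L j) v + o j -
          (gl c l (L j) w + gl c l (L j) v + (ev (L j) z + o j)) =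
          ev (L j) z' - (ev (L j) z + gl c l (L j) w) := by ring
      rw [e2]
      refine h1.trans ((mul_le_mul_of_nonneg_right ?_ hc0.le).trans hcM)
      exact single_le_sum (f := fun j => ∑ i : Fin l.length, |(L j (l.get i) : ℝ)|)
        (fun j _ => sum_nonneg (fun i _ => abs_nonneg _)) (mem_univ j)
  refine ⟨lam, L1, fun K K' hK hK' z' z'' hz' hz'' => ?_⟩
  obtain ⟨B, hB, h1⟩ := key K hK z' hz'
  obtain ⟨B', hB', h2⟩ := key K' hK' z'' hz''
  have h3 := Hlin B B' hB hB'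
  rw [abs_le] at h1 h2 h3 ⊢
  constructor <;> linarith

/-- all meshes -/
lemma adm_cauchy (F : Flow ν) {ψ : (ℕ → ℝ) → ℝ} (h : Adm F ψ) (l : List ℕ) (hl : l.Nodup)
    (z : ℕ → ℝ) (ε : ℝ) (hε : 0 < ε) : ∃ L0 : ℕ, ∃ m0 : ℝ, ∀ k K : ℕ → ℕ, (∀ d ∈ l, L0 ≤ k d) →
      (∀ d ∈ l, L0 ≤ K d) → ∀ z' : ℕ → ℝ, (∀ d, d ∉ l → z' d = z d) →
        |AvL k K l ψ z' - m0| ≤ ε := by
  obtain ⟨lam, L1, H⟩ := adm_mesh F h l z ε hε
  refine ⟨max lam L1, AvL (fun _ => lam) (fun _ => L1) l ψ z, fun k K hk hK z' hz' => ?_⟩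
  refine AvL_refine lam k K l hl (fun d hd => (le_max_left _ _).trans (hk d hd)) _ _ ψ z'
    (fun z'' hz'' => ?_)
  exact H K (fun _ => L1) (fun d hd => (le_max_right _ _).trans (hK d hd)) (fun _ _ => le_rfl) z'' z
    (fun d hd => (hz'' d hd).trans (hz' d hd)) (fun _ _ => rfl)

/-- **M2a**: the uniform means of admissible functions exist. -/
theorem adm_um (F : Flow ν) {ψ : (ℕ → ℝ) → ℝ} (h : Adm F ψ) (l : List ℕ) (hl : l.Nodup)
    (z : ℕ → ℝ) : ∃ m : ℝ, UMat l ψ z m := by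
  have hC : CauchySeq (fun n : ℕ => AvL (fun _ => n) (fun _ => n) l ψ z) := by
    rw [Metric.cauchySeq_iff']
    intro ε hε
    obtain ⟨L0, m0, H⟩ := adm_cauchy F h l hl z (ε / 3) (by positivity)
    refine ⟨L0, fun n hn => ?_⟩
    have h1 := H (fun _ => n) (fun _ => n) (fun _ _ => hn) (fun _ _ => hn) z (fun _ _ => rfl)
    have h2 := H (fun _ => L0) (fun _ => L0) (fun _ _ => le_rfl) (fun _ _ => le_rfl) z
      (fun _ _ => rfl)
    rw [Real.dist_eq, abs_lt]
    rw [abs_le] at h1 h2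
    constructor <;> linarith
  obtain ⟨m, hm⟩ := cauchySeq_tendsto_of_complete hC
  refine ⟨m, fun ε hε => ?_⟩
  obtain ⟨L0, m0, H⟩ := adm_cauchy F h l hl z (ε / 2) (by positivity)
  refine ⟨L0, fun k K hk hK z' hz' => ?_⟩
  have h1 := H k K hk hK z' hz'
  have h2 : |m - m0| ≤ ε / 2 := by
    refine le_of_tendsto (hm.sub_const m0).abs (eventually_atTop.2 ⟨L0, fun n hn => ?_⟩)
    exact H (fun _ => n) (fun _ => n) (fun _ _ => hn) (fun _ _ => hn) z (fun _ _ => rfl)
  rw [abs_le] at h1 h2 ⊢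
  constructor <;> linarith

/-- all uniform means of an admissible function exist -/
theorem UA.of_adm (F : Flow ν) {ψ : (ℕ → ℝ) → ℝ} (h : Adm F ψ) : UA ψ :=
  fun l hl z => adm_um F h l hl z

/-- the same for `z ↦ I (A z)` -/
theorem AdmG.ua {F : Flow ν} {A : (ℕ → ℝ) → BM Y} (h : AdmG F A) : UA (fun z => I ν (A z)) :=
  UA.of_adm F h.adm

end main

end Pool.Agent.H63.NS
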